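import Pool.Agent.HZ.Mrg

/-!
# Local systems on punctured spheres with simple loops of finite order: the structure theorem

Let `ρ` be a representation of rank `r` of the fundamental group `F` of a disc (or a sphere) with
`n` punctures such that the eigenvalues of `ρ γ` are roots of unity for all simple closed curves
`γ`.  Then there is a set `S` of punctures, the number of which is bounded in terms of `r` only,
such that the following hold for the normal subgroup `K` of `F` generated by the loops around the
punctures outside `S`.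

(a) The elements of `ρ K` have only roots of unity as eigenvalues, and `ρ K` is finite if `ρ` is
completely reducible.

(b) The braid group orbit of the character of `ρ` is finite if and only if that of its restriction
to the subdisc with the punctures in `S` is finite.

(c) If `ρ` is irreducible, then it is induced from `β ⊗ α`, where `α` and `β` are representations
of a subgroup `H` of finite index, the image of `α` is finite, and `β` is trivial on `K ≤ H`; so `β`
is a representation of `H/K`, a subgroup of the fundamental group `F/K` of the disc with the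
punctures in `S`.  The eigenvalues of `β h` are roots of unity if `h` is conjugate to a power of a
simple closed curve.  The rank of `β` divides the dimensions of all eigenspaces of the `ρ x_i`,
`i ∉ S`, and is at most `r/2` if more than `N(r)` of the `ρ x_i` are not scalar.

Moreover (d) the monodromy group of an irreducible `ρ` is virtually abelian if more than `N(r)` of
the `ρ x_i` have an eigenspace of dimension prime to `r`, or if `r` is prime and more than `N(r)`
of them are not scalar; and (e) if the orbits are finite for all `ρ` of rank `r` as above on discs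
with at most `N(r)` punctures, then they are finite for all numbers of punctures.
-/

namespace Pool.Agent.Results.MP_0707f5_ag.StructureTheorem

open Pool.Agent.HZ Module

theorem result (r : ℕ) (hr : 0 < r) : ∃ N : ℕ,
    (∀ (n : ℕ) (ρ : FreeGroup (Fin n) →* GL (Fin r) ℂ),
      (∀ γ, IsSimpleLoop γ → Quasi (ρ γ)) → ∃ S : Finset (Fin n), S.card ≤ N ∧
        (∀ x ∈ Subgroup.normalClosure {x | ∃ i ∉ S, x = FreeGroup.of i}, Quasi (ρ x)) ∧
        (CRed ρ.range →
          Finite ((Subgroup.normalClosure {x | ∃ i ∉ S, x = FreeGroup.of i}).map ρ)) ∧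
        (FinOrb ρ ↔ FinOrb (ρ.comp (inc S))) ∧
        (Irr ρ.range → ∃ (H : Subgroup (FreeGroup (Fin n))) (d e : ℕ) (α : H →* GL (Fin d) ℂ)
          (β : H →* GL (Fin e) ℂ), IndTensor ρ H β α ∧ Finite α.range ∧
          Subgroup.normalClosure {x | ∃ i ∉ S, x = FreeGroup.of i} ≤ β.ker.map H.subtype ∧
          (∀ (h : H) (g γ : FreeGroup (Fin n)) (k : ℕ), IsSimpleLoop γ →
            (h : FreeGroup (Fin n)) = g * γ ^ k * g⁻¹ → Quasi (β h)) ∧
          (∀ i ∉ S, ∀ z : ℂ, e ∣ finrank ℂ (Module.End.eigenspace
            (Matrix.mulVecLin (ρ (FreeGroup.of i) : Matrix (Fin r) (Fin r) ℂ)) z)) ∧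
          (N < Nat.card {i | ∀ z : ℂ,
            (ρ (FreeGroup.of i) : Matrix (Fin r) (Fin r) ℂ) ≠ z • 1} → 2 * e ≤ r))) ∧
    (∀ (n : ℕ) (ρ : FreeGroup (Fin n) →* GL (Fin r) ℂ),
      (∀ γ, IsSimpleLoop γ → Quasi (ρ γ)) → Irr ρ.range →
      (N < Nat.card {i | ∃ z : ℂ, (finrank ℂ (Module.End.eigenspace
          (Matrix.mulVecLin (ρ (FreeGroup.of i) : Matrix (Fin r) (Fin r) ℂ)) z)).Coprime r} ∨
        (r.Prime ∧ N < Nat.card {i | ∀ z : ℂ,
          (ρ (FreeGroup.of i) : Matrix (Fin r) (Fin r) ℂ) ≠ z • 1})) → VirtAb ρ.range) ∧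
    ((∀ n ≤ N, ∀ ρ : FreeGroup (Fin n) →* GL (Fin r) ℂ,
      (∀ γ, IsSimpleLoop γ → Quasi (ρ γ)) → FinOrb ρ) →
    ∀ (n : ℕ) (ρ : FreeGroup (Fin n) →* GL (Fin r) ℂ),
      (∀ γ, IsSimpleLoop γ → Quasi (ρ γ)) → FinOrb ρ) :=
  struct_thm r hr

end Pool.Agent.Results.MP_0707f5_ag.StructureTheorem
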